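import Pool.Agent.MWGN.StmtsA

set_option autoImplicit false

namespace Pool.Agent.MWGN.H42

open Pool.Agent.Helper14_MV Pool.Agent.Helper2_MV
open Pool.Agent.MWK (pre)

theorem bd_succ (L C : ℕ → List ℕ) (m : ℕ) : bd L C (m + 1) = bd L C m ++ (L m ++ (C m ++ C m)) := by
  simp [bd, List.range_succ]

theorem bd_count (f g : ℕ → ℕ) (m c : ℕ) : (bd (sg f) (sg g) (m + 1)).count c =
    (bd (sg f) (sg g) m).count c + ((if f m = c then 1 else 0) +
      ((if g m = c then 1 else 0) + (if g m = c then 1 else 0))) := by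
  rw [bd_succ]
  simp only [sg, List.count_append, List.count_singleton, beq_iff_eq]

/-- level 1 -/
def B1 (m : ℕ) : List ℕ := bd (sg N1.L) (sg N1.C) m

theorem b1_succ (m c : ℕ) : (B1 (m + 1)).count c = (B1 m).count c + ((if 6 + 6 * m = c then 1 else 0) +
      ((if 7 + 6 * m = c then 1 else 0) + (if 7 + 6 * m = c then 1 else 0))) := bd_count _ _ m c

theorem b1_zero (c : ℕ) : (B1 0).count c = 0 := by simp [B1, bd]

theorem b1_L (m j : ℕ) : (B1 m).count (6 + 6 * j) = if j < m then 1 else 0 := by
  induction m with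
  | zero => simp [b1_zero]
  | succ m ih =>
    rw [b1_succ, ih]
    split_ifs <;> omega

theorem b1_C (m j : ℕ) : (B1 m).count (7 + 6 * j) = if j < m then 2 else 0 := by
  induction m with
  | zero => simp [b1_zero]
  | succ m ih =>
    rw [b1_succ, ih]
    split_ifs <;> omega

theorem b1_o (m c : ℕ) (h : c < 6 ∨ (c % 6 ≠ 0 ∧ c % 6 ≠ 1)) : (B1 m).count c = 0 := by
  induction m with
  | zero => simp [b1_zero]
  | succ m ih =>
    rw [b1_succ, ih]
    split_ifs <;> omega

theorem b2_o (k m c : ℕ) (h : c % 6 ≠ 3 ∧ c % 6 ≠ 4) :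
    (bd (sg (N2 k).L) (sg (N2 k).C) m).count c = 0 := by
  induction m with
  | zero => simp [bd]
  | succ m ih =>
    rw [bd_count, ih]
    have e1 : (N2 k).L m = 9 + 6 * m := rfl
    have e2 : (N2 k).C m = 10 + 6 * m := rfl
    rw [e1, e2]
    split_ifs <;> omega

theorem b2_4 (k m c : ℕ) (h : c < 6) :
    (bd (sg (N2 k).L) (sg (N2 k).C) m).count c = 0 := by
  induction m with
  | zero => simp [bd]
  | succ m ih =>
    rw [bd_count, ih]
    have e1 : (N2 k).L m = 9 + 6 * m := rfl
    have e2 : (N2 k).C m = 10 + 6 * m := rfl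
    rw [e1, e2]
    split_ifs <;> omega

/-- the head in front of `3` -/
def hd (m : ℕ) : List ℕ := [0, 1, 2, 0] ++ (B1 m ++ [6 + 6 * m, 6 + 6 * (m + 1), 1])

/-- the tails -/
def TA (τ : List ℕ) (m : ℕ) : List ℕ := τ.flatMap (fun i => N1.S i :: T1 m i)

def TB (τ : List ℕ) (m : ℕ) : List ℕ := τ.flatMap (fun i => (N2 m).S i :: T2 m i)

theorem w_eq (τ : List ℕ) (m : ℕ) : w0 τ m true true = hd m ++ 3 :: (TA τ m ++ 4 :: TB τ m) := by
  unfold w0 ww hd TA TB B1
  have e1 : N1.L m = 6 + 6 * m := rfl
  have e2 : N1.L (m + 1) = 6 + 6 * (m + 1) := rfl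
  rw [e1, e2]
  simp

theorem fm_count (F : ℕ → List ℕ) (c i0 : ℕ) : ∀ τ : List ℕ,
    (∀ i ∈ τ, (F i).count c = if i = i0 then 1 else 0) → (τ.flatMap F).count c = τ.count i0 := by
  intro τ
  induction τ with
  | nil => intro _; simp
  | cons a l ih =>
    intro h
    rw [List.flatMap_cons, List.count_append, ih (fun i hi => h i (List.mem_cons_of_mem _ hi)),
      h a (by simp), List.count_cons]
    by_cases ha : a = i0
    · simp [ha, Nat.add_comm]
    · simp [ha]

theorem fm_zero (F : ℕ → List ℕ) (c : ℕ) : ∀ τ : List ℕ,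
    (∀ i ∈ τ, (F i).count c = 0) → (τ.flatMap F).count c = 0 := by
  intro τ
  induction τ with
  | nil => intro _; simp
  | cons a l ih =>
    intro h
    rw [List.flatMap_cons, List.count_append, ih (fun i hi => h i (List.mem_cons_of_mem _ hi)),
      h a (by simp)]

/-- counts in the block of `i` in the first tails -/
theorem t1_count (m i c : ℕ) : (N1.S i :: T1 m i).count c =
    (if 5 + 6 * i = c then 1 else 0) + (if i = m then
      ((if 6 + 6 * m = c then 1 else 0) + ((bd (sg (N2 m).L) (sg (N2 m).C) (m + 1)).count c +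
        ((if 9 + 6 * (m + 1) = c then 1 else 0) + (if 6 + 6 * (m + 1) = c then 1 else 0))))
      else (if 6 + 6 * i = c then 1 else 0)) := by
  have e0 : N1.S i = 5 + 6 * i := rfl
  have e1 : N1.L m = 6 + 6 * m := rfl
  have e2 : N1.L (m + 1) = 6 + 6 * (m + 1) := rfl
  have e3 : (N2 m).L (m + 1) = 9 + 6 * (m + 1) := rfl
  have e4 : N1.L i = 6 + 6 * i := rfl
  unfold T1
  rw [e0, List.count_cons]
  by_cases hi : i = m
  · rw [if_pos hi, if_pos hi, e1, e2, e3, List.count_cons, List.count_append, List.count_cons,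
      List.count_singleton]
    simp only [beq_iff_eq]
    omega
  · rw [if_neg hi, if_neg hi, e4, List.count_singleton]
    simp only [beq_iff_eq]
    omega

theorem t2_count (m i c : ℕ) : ((N2 m).S i :: T2 m i).count c =
    (if 8 + 6 * i = c then 1 else 0) + (if i = m then
      ((if 9 + 6 * m = c then 1 else 0) + (if 9 + 6 * (m + 1) = c then 1 else 0))
      else (if 9 + 6 * i = c then 1 else 0)) := by
  have e0 : (N2 m).S i = 8 + 6 * i := rfl
  have e1 : (N2 m).L m = 9 + 6 * m := rfl
  have e2 : (N2 m).L (m + 1) = 9 + 6 * (m + 1) := rfl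
  have e4 : (N2 m).L i = 9 + 6 * i := rfl
  unfold T2
  rw [e0, List.count_cons]
  by_cases hi : i = m
  · rw [if_pos hi, if_pos hi, e1, e2, List.count_cons, List.count_singleton]
    simp only [beq_iff_eq]
    omega
  · rw [if_neg hi, if_neg hi, e4, List.count_singleton]
    simp only [beq_iff_eq]
    omega

theorem ta_o (τ : List ℕ) (m c : ℕ) (h : c < 5 ∨ c % 6 = 1) : (TA τ m).count c = 0 := by
  apply fm_zero
  intro i _
  rw [t1_count]
  have hb : (bd (sg (N2 m).L) (sg (N2 m).C) (m + 1)).count c = 0 := by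
    rcases h with h | h
    · exact b2_4 m _ c (by omega)
    · exact b2_o m _ c (by omega)
  rw [hb]
  split_ifs <;> omega

theorem tb_o (τ : List ℕ) (m c : ℕ) (h : c < 5 ∨ (c % 6 ≠ 2 ∧ c % 6 ≠ 3)) :
    (TB τ m).count c = 0 := by
  apply fm_zero
  intro i _
  rw [t2_count]
  split_ifs <;> omega

/-- the letter `L j` in the block of `i` -/
theorem t1_L (m i j : ℕ) (hi : i ≤ m) (hj : j ≤ m + 1) :
    (N1.S i :: T1 m i).count (6 + 6 * j) = if i = min j m then 1 else 0 := by
  rw [t1_count, b2_o m _ _ (by omega)]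
  rcases Nat.lt_or_ge j m with h | h
  · rw [Nat.min_eq_left (by omega)]
    split_ifs <;> omega
  · rw [Nat.min_eq_right h]
    split_ifs <;> omega

theorem t1_S (m i j : ℕ) : (N1.S i :: T1 m i).count (5 + 6 * j) = if i = j then 1 else 0 := by
  rw [t1_count, b2_o m _ _ (by omega)]
  split_ifs <;> omega

theorem sa1 (h1 : PrfStmt) (h2 : PrbStmt) : Sa1Stmt := by
  intro τ m ht
  have hτ : ∀ i, i ≤ m → τ.count i = 1 := fun i hi =>
    List.count_eq_one_of_mem ht.1 ((ht.2 i).2 hi)
  have hle : ∀ i ∈ τ, i ≤ m := fun i hi => (ht.2 i).1 hi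
  set w := w0 τ m true true with hw
  have we : w = hd m ++ 3 :: (TA τ m ++ 4 :: TB τ m) := w_eq τ m
  have wc : ∀ c, w.count c = (hd m).count c + ((TA τ m).count c + (TB τ m).count c +
      ((if 3 = c then 1 else 0) + (if 4 = c then 1 else 0))) := by
    intro c
    rw [we, List.count_append, List.count_cons, List.count_append, List.count_cons]
    simp only [beq_iff_eq]
    omega
  have hc : ∀ c, (hd m).count c = (B1 m).count c + ((if 0 = c then 2 else 0) +
      ((if 1 = c then 2 else 0) + ((if 2 = c then 1 else 0) +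
      ((if 6 + 6 * m = c then 1 else 0) + (if 6 + 6 * (m + 1) = c then 1 else 0))))) := by
    intro c
    unfold hd
    rw [List.count_append, List.count_append]
    simp only [List.count_cons, List.count_nil, beq_iff_eq]
    split_ifs <;> omega
  have hdL : ∀ i ≤ m + 1, (hd m).count (6 + 6 * i) = 1 := by
    intro i hi
    rw [hc, b1_L]
    split_ifs <;> omega
  have hdC : ∀ i < m, (hd m).count (7 + 6 * i) = 2 := by
    intro i hi
    rw [hc, b1_C]
    split_ifs <;> omega
  have hdS : ∀ i, (hd m).count (5 + 6 * i) = 0 := by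
    intro i
    rw [hc, b1_o m _ (by omega)]
    split_ifs <;> omega
  have hd3 : (hd m).count 3 = 0 := by
    rw [hc, b1_o m _ (by omega)]
    split_ifs <;> omega
  have hd0 : (hd m).count 0 = 2 := by
    rw [hc, b1_o m _ (by omega), if_pos rfl, if_neg (by omega), if_neg (by omega),
      if_neg (by omega), if_neg (by omega)]
  have hd1 : (hd m).count 1 = 2 := by
    rw [hc, b1_o m _ (by omega), if_neg (by omega), if_pos rfl, if_neg (by omega),
      if_neg (by omega), if_neg (by omega)]
  have hd2 : (hd m).count 2 = 1 := by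
    rw [hc, b1_o m _ (by omega), if_neg (by omega), if_neg (by omega), if_pos rfl,
      if_neg (by omega), if_neg (by omega)]
  have taL : ∀ i ≤ m + 1, (TA τ m).count (6 + 6 * i) = 1 := by
    intro i hi
    unfold TA
    rw [fm_count _ _ (min i m) τ (fun k hk => t1_L m k i (hle k hk) hi)]
    exact hτ _ (by omega)
  have taS : ∀ i ≤ m, (TA τ m).count (5 + 6 * i) = 1 := by
    intro i hi
    unfold TA
    rw [fm_count _ _ i τ (fun k _ => t1_S m k i)]
    exact hτ _ hi
  have wL : ∀ i ≤ m + 1, w.count (6 + 6 * i) = 2 := by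
    intro i hi
    rw [wc, hdL i hi, taL i hi, tb_o _ _ _ (by omega)]
    split_ifs <;> omega
  have wC : ∀ i < m, w.count (7 + 6 * i) = 2 := by
    intro i hi
    rw [wc, hdC i hi, ta_o _ _ _ (by omega), tb_o _ _ _ (by omega)]
    split_ifs <;> omega
  have wS : ∀ i ≤ m, w.count (5 + 6 * i) = 1 := by
    intro i hi
    rw [wc, hdS i, taS i hi, tb_o _ _ _ (by omega)]
    split_ifs <;> omega
  have w00 : w.count 0 = 2 := by
    rw [wc, hd0, ta_o _ _ _ (by omega), tb_o _ _ _ (by omega)]
    simp
  have w01 : w.count 1 = 2 := by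
    rw [wc, hd1, ta_o _ _ _ (by omega), tb_o _ _ _ (by omega)]
    simp
  have w02 : w.count 2 = 1 := by
    rw [wc, hd2, ta_o _ _ _ (by omega), tb_o _ _ _ (by omega)]
    simp
  have w03 : w.count 3 = 1 := by
    rw [wc, hd3, ta_o _ _ _ (by omega), tb_o _ _ _ (by omega)]
    simp
  -- prefixes
  have p3 : pre w 3 = hd m := by
    rw [we]
    exact MWK.pre_split (List.count_eq_zero.1 hd3) _
  have p2 : pre w 2 = [0, 1] := by
    have : w = [0, 1] ++ 2 :: ([0] ++ (B1 m ++ [6 + 6 * m, 6 + 6 * (m + 1), 1]) ++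
        3 :: (TA τ m ++ 4 :: TB τ m)) := by
      rw [we]
      unfold hd
      simp
    rw [this]
    exact MWK.pre_split (by simp) _
  have p1 : pre w 1 = [0] := by
    have : w = [0] ++ 1 :: ([2, 0] ++ (B1 m ++ [6 + 6 * m, 6 + 6 * (m + 1), 1]) ++
        3 :: (TA τ m ++ 4 :: TB τ m)) := by
      rw [we]
      unfold hd
      simp
    rw [this]
    exact MWK.pre_split (by simp) _
  have pS : ∀ j ≤ m, pre w (5 + 6 * j) = hd m ++ 3 :: (pre τ j).flatMap (fun i => N1.S i :: T1 m i) := by
    intro j hj
    have e1 : w = (hd m ++ [3]) ++ (TA τ m ++ 4 :: TB τ m) := by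
      rw [we]
      simp
    have hn : 5 + 6 * j ∉ hd m ++ [3] := by
      rw [List.mem_append, not_or]
      refine ⟨List.count_eq_zero.1 (hdS j), ?_⟩
      rw [List.mem_singleton]
      omega
    rw [e1, MWK.pre_append hn]
    have e2 := h1 N1.S (T1 m) τ j ((ht.2 j).2 hj) (by
      intro i _ hij h
      have : 5 + 6 * i = 5 + 6 * j := h
      omega) (by
      intro i _ hij h
      have h3 := t1_S m i j
      rw [if_neg hij, List.count_eq_zero] at h3
      exact h3 (List.mem_cons_of_mem _ h)) (4 :: TB τ m)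
    have e3 : N1.S j = 5 + 6 * j := rfl
    rw [e3] at e2
    unfold TA
    rw [e2]
    simp
  have pL : ∀ j, j < m → pre w (6 + 6 * j) = [0, 1, 2, 0] ++ B1 j := by
    intro j hj
    have e1 : w = [0, 1, 2, 0] ++ (B1 m ++ ([6 + 6 * m, 6 + 6 * (m + 1), 1] ++
        3 :: (TA τ m ++ 4 :: TB τ m))) := by
      rw [we]
      unfold hd
      simp
    have hn : 6 + 6 * j ∉ [0, 1, 2, 0] := by
      simp
      omega
    rw [e1, MWK.pre_append hn]
    have e2 := h2 N1.L N1.C m j hj (by
      intro i _ i' _ h
      have : 6 + 6 * i = 6 + 6 * i' := h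
      omega) (by
      intro i _ i' _ h
      have : 7 + 6 * i = 6 + 6 * i' := h
      omega) ([6 + 6 * m, 6 + 6 * (m + 1), 1] ++ 3 :: (TA τ m ++ 4 :: TB τ m))
    have e3 : N1.L j = 6 + 6 * j := rfl
    rw [e3] at e2
    have e4 : bd (sg N1.L) (sg N1.C) m = B1 m := rfl
    rw [e4] at e2
    rw [e2]
    rfl
  have pm : pre w (6 + 6 * m) = [0, 1, 2, 0] ++ B1 m := by
    have e1 : w = ([0, 1, 2, 0] ++ B1 m) ++ (6 + 6 * m) :: ([6 + 6 * (m + 1), 1] ++
        3 :: (TA τ m ++ 4 :: TB τ m)) := by
      rw [we]
      unfold hd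
      simp
    rw [e1]
    apply MWK.pre_split
    rw [List.mem_append, not_or]
    refine ⟨by simp; omega, ?_⟩
    rw [← List.count_eq_zero, b1_L]
    simp
  have pm1 : pre w (6 + 6 * (m + 1)) = [0, 1, 2, 0] ++ B1 m ++ [6 + 6 * m] := by
    have e1 : w = ([0, 1, 2, 0] ++ B1 m ++ [6 + 6 * m]) ++ (6 + 6 * (m + 1)) :: ([1] ++
        3 :: (TA τ m ++ 4 :: TB τ m)) := by
      rw [we]
      unfold hd
      simp
    rw [e1]
    apply MWK.pre_split
    rw [List.mem_append, not_or, List.mem_append, not_or]
    refine ⟨⟨by simp; omega, ?_⟩, ?_⟩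
    · rw [← List.count_eq_zero, b1_L]
      simp
    · rw [List.mem_singleton]
      omega
  -- counts in front of `L j`
  have nL : ∀ j ≤ m + 1, ∀ c, (c < 5 ∨ c % 6 = 1) → nn w c (6 + 6 * j) =
      (B1 (min j m)).count c + ([0, 1, 2, 0] : List ℕ).count c := by
    intro j hj c hcc
    unfold nn
    rcases Nat.lt_or_ge j m with h | h
    · rw [pL j h, List.count_append, Nat.min_eq_left (by omega)]
      omega
    · rcases Nat.lt_or_ge j (m + 1) with h' | h'
      · have : j = m := by omega
        subst this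
        rw [pm, List.count_append, Nat.min_self]
        omega
      · have : j = m + 1 := by omega
        subst this
        rw [pm1, List.count_append, List.count_append, Nat.min_eq_right (by omega),
          List.count_singleton]
        have : (6 + 6 * m == c) = false := by
          simp only [beq_eq_false_iff_ne]
          omega
        rw [this]
        simp
        omega
  refine ⟨?_, ?_, ?_⟩
  · constructor
    · exact w02
    · exact w03
    · show nn w 3 2 = 0
      unfold nn
      rw [p2]
      simp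
    · show 2 ≤ w.count 0
      omega
    · show 2 ≤ w.count 1
      omega
    · show nn w 0 2 = 1
      unfold nn
      rw [p2]
      simp
    · show nn w 1 2 = 1
      unfold nn
      rw [p2]
      simp
    · show nn w 0 3 = w.count 0
      unfold nn
      rw [p3, hd0, w00]
    · show nn w 1 3 = w.count 1
      unfold nn
      rw [p3, hd1, w01]
    · intro i hi
      show 2 ≤ w.count (6 + 6 * i)
      rw [wL i hi]
    · intro i _
      show nn w (6 + 6 * i) 2 = 0
      unfold nn
      rw [p2]
      rw [List.count_eq_zero]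
      simp
      omega
    · intro i hi
      show nn w (6 + 6 * i) 3 = 1
      unfold nn
      rw [p3, hdL i hi]
    · intro i hi
      show 2 ≤ w.count (7 + 6 * i)
      rw [wC i hi]
    · intro i _
      show nn w (7 + 6 * i) 2 = 0
      unfold nn
      rw [p2]
      rw [List.count_eq_zero]
      simp
      omega
    · intro i hi
      show nn w (7 + 6 * i) 3 = w.count (7 + 6 * i)
      unfold nn
      rw [p3, hdC i hi, wC i hi]
    · intro i hi
      show nn w 0 (6 + 6 * i) = w.count 0
      rw [nL i hi 0 (by omega), w00, b1_o _ _ (by omega)]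
      simp
    · intro i hi
      show nn w 1 (6 + 6 * i) = 1
      rw [nL i hi 1 (by omega), b1_o _ _ (by omega)]
      simp
    · intro i hi j hj
      show nn w (7 + 6 * i) (6 + 6 * j) = 0
      rw [nL j (by omega) _ (by omega), b1_C, if_neg (by omega)]
      rw [Nat.zero_add, List.count_eq_zero]
      simp
      omega
    · intro i hi j hj hj'
      show nn w (7 + 6 * i) (6 + 6 * j) = w.count (7 + 6 * i)
      rw [nL j hj' _ (by omega), b1_C, if_pos (by omega), wC i hi]
      have : ([0, 1, 2, 0] : List ℕ).count (7 + 6 * i) = 0 := by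
        rw [List.count_eq_zero]
        simp
        omega
      rw [this]
  · constructor
    · intro i hi
      exact wS i hi
    · intro i _
      show nn w (5 + 6 * i) 3 = 0
      unfold nn
      rw [p3]
      exact hdS i
    · intro i j hi hj hij
      show nn w (5 + 6 * j) (5 + 6 * i) = 0
      unfold nn
      rw [pS i hi, List.count_append, List.count_cons, hdS j,
        fm_count _ _ j (pre τ i) (fun k _ => t1_S m k j),
        List.count_eq_zero.2 (MWK.pre_asymm hij)]
      have : (3 == 5 + 6 * j) = false := by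
        simp only [beq_eq_false_iff_ne]
        omega
      rw [this]
      simp
    · intro i hi
      show nn w (6 + 6 * i) (5 + 6 * i) = 1
      unfold nn
      have hmem : ∀ k ∈ pre τ i, k ≤ m := fun k hk => hle k (MWK.mem_of_mem_pre hk)
      rw [pS i hi, List.count_append, List.count_cons, hdL i (by omega),
        fm_count _ _ (min i m) (pre τ i) (fun k hk => t1_L m k i (hmem k hk) (by omega)),
        Nat.min_eq_left hi, List.count_eq_zero.2 (MWK.not_mem_pre τ i)]
      have : (3 == 6 + 6 * i) = false := by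
        simp only [beq_eq_false_iff_ne]
        omega
      rw [this]
      simp
    · intro i j hi hj hij
      show nn w (6 + 6 * i) (5 + 6 * j) = w.count (6 + 6 * i)
      unfold nn
      have hmem : ∀ k ∈ pre τ j, k ≤ m := fun k hk => hle k (MWK.mem_of_mem_pre hk)
      have hc1 : (pre τ j).count i = 1 := by
        apply List.count_eq_one_of_mem _ hij
        exact ht.1.sublist (MWK.pre_prefix τ j).sublist
      rw [pS j hj, List.count_append, List.count_cons, hdL i (by omega),
        fm_count _ _ (min i m) (pre τ j) (fun k hk => t1_L m k i (hmem k hk) (by omega)),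
        Nat.min_eq_left hi, hc1, wL i (by omega)]
      have : (3 == 6 + 6 * i) = false := by
        simp only [beq_eq_false_iff_ne]
        omega
      rw [this]
      simp
  · show nn w 0 1 = 1
    unfold nn
    rw [p1]
    simp

end Pool.Agent.MWGN.H42
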